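import Mathlib

set_option autoImplicit false

namespace Pool.Agent.Results.MP_6a5936_nt.PrePeriod

open Polynomial

/-! ### polynomials modulo a prime -/

theorem dvd_of_map {p : ℕ} [Fact p.Prime] {f : ℤ[X]}
    (h : f.map (Int.castRingHom (ZMod p)) = 0) : (C (p : ℤ)) ∣ f := by
  rw [C_dvd_iff_dvd_coeff]
  intro i
  have h1 := congrArg (fun g => coeff g i) h
  simp only [coeff_map, coeff_zero, eq_intCast] at h1
  exact (ZMod.intCast_zmod_eq_zero_iff_dvd _ _).1 h1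

/-- the polynomial `1 + X ^ Q + X ^ (2 Q) + ... + X ^ ((p - 1) Q)` -/
noncomputable def Phi (p Q : ℕ) : ℤ[X] := ∑ i ∈ Finset.range p, (X ^ Q) ^ i

theorem Phi_mul (p Q : ℕ) : (X ^ Q - 1) * Phi p Q = X ^ (Q * p) - 1 := by
  unfold Phi
  rw [mul_comm, geom_sum_mul, ← pow_mul]

theorem Phi_eval_one (p Q : ℕ) : (Phi p Q).eval 1 = p := by
  unfold Phi
  rw [eval_finsetSum]
  simp

theorem frob (p : ℕ) [Fact p.Prime] (b : ℕ) :
    ∃ f : ℤ[X], (1 - X) ^ (p ^ b) = 1 - X ^ (p ^ b) + C (p : ℤ) * f := by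
  have h : (C (p : ℤ)) ∣ ((1 - X) ^ (p ^ b) - (1 - X ^ (p ^ b)) : ℤ[X]) := by
    apply dvd_of_map
    simp only [Polynomial.map_sub, Polynomial.map_pow, Polynomial.map_one, map_X]
    rw [sub_pow_char_pow, one_pow, sub_self]
  obtain ⟨f, hf⟩ := h
  exact ⟨f, by linear_combination hf⟩

theorem map_Phi (p : ℕ) [Fact p.Prime] (b : ℕ) :
    (Phi p (p ^ b)).map (Int.castRingHom (ZMod p)) = (1 - X) ^ (p ^ b * (p - 1)) := by
  have hp : 1 ≤ p := (Fact.out : p.Prime).one_lt.le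
  have h1 : ((X ^ (p ^ b) - 1 : (ZMod p)[X])) * (Phi p (p ^ b)).map (Int.castRingHom (ZMod p)) =
      X ^ (p ^ b * p) - 1 := by
    have := congrArg (Polynomial.map (Int.castRingHom (ZMod p))) (Phi_mul p (p ^ b))
    simpa using this
  have h2 : ((1 - X : (ZMod p)[X])) ^ (p ^ b) = 1 - X ^ (p ^ b) := by
    rw [sub_pow_char_pow, one_pow]
  have h3 : ((1 - X : (ZMod p)[X])) ^ (p ^ (b + 1)) = 1 - X ^ (p ^ (b + 1)) := by
    rw [sub_pow_char_pow, one_pow]
  have hne : ((1 - X : (ZMod p)[X])) ^ (p ^ b) ≠ 0 := by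
    apply pow_ne_zero
    intro h
    have := congrArg (eval 0) h
    simp at this
  apply mul_left_cancel₀ hne
  rw [← pow_add, h2]
  have h4 : p ^ b + p ^ b * (p - 1) = p ^ (b + 1) := by
    obtain ⟨k, rfl⟩ := Nat.exists_eq_add_of_le hp
    simp only [Nat.add_sub_cancel_left]
    ring
  rw [h4, h3, pow_succ]
  linear_combination -h1

theorem cong_Phi (p : ℕ) [Fact p.Prime] (b : ℕ) :
    ∃ f : ℤ[X], (1 - X) ^ (p ^ b * (p - 1)) = Phi p (p ^ b) + C (p : ℤ) * f := by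
  have h : (C (p : ℤ)) ∣ ((1 - X) ^ (p ^ b * (p - 1)) - Phi p (p ^ b) : ℤ[X]) := by
    apply dvd_of_map
    rw [Polynomial.map_sub, map_Phi]
    simp
  obtain ⟨f, hf⟩ := h
  exact ⟨f, by linear_combination hf⟩

theorem Phi_sq (p Q : ℕ) : ∃ d : ℤ[X], Phi p Q * Phi p Q = C (p : ℤ) * Phi p Q + (X ^ (Q * p) - 1) * d := by
  have h : (X ^ Q - 1 : ℤ[X]) ∣ Phi p Q - C (p : ℤ) := by
    have e : Phi p Q - C (p : ℤ) = ∑ i ∈ Finset.range p, ((X ^ Q) ^ i - 1 : ℤ[X]) := by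
      unfold Phi
      rw [Finset.sum_sub_distrib]
      simp
    rw [e]
    exact Finset.dvd_sum fun i _ => by
      have := sub_dvd_pow_sub_pow (X ^ Q : ℤ[X]) 1 i
      rwa [one_pow] at this
  obtain ⟨d, hd⟩ := h
  refine ⟨d, ?_⟩
  have h1 := Phi_mul p Q
  linear_combination (Phi p Q) * hd + d * h1

/-- **upper bound** for the nilpotency index -/
theorem upper (p : ℕ) [Fact p.Prime] (b e : ℕ) :
    ∃ u c : ℤ[X], (1 - X) ^ (p ^ b + e * (p ^ b * (p - 1))) =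
      C ((p : ℤ) ^ e) * u + (X ^ (p ^ (b + 1)) - 1) * c := by
  obtain ⟨f1, hf1⟩ := frob p b
  obtain ⟨f, hf⟩ := cong_Phi p b
  obtain ⟨d, hd⟩ := Phi_sq p (p ^ b)
  have hK := Phi_mul p (p ^ b)
  rw [← pow_succ] at hd hK
  suffices H : ∃ u v c : ℤ[X], (1 - X) ^ (p ^ b + e * (p ^ b * (p - 1))) =
      C ((p : ℤ) ^ e) * (u * Phi p (p ^ b) + v * (1 - X) ^ (p ^ b)) + (X ^ (p ^ (b + 1)) - 1) * c by
    obtain ⟨u, v, c, h⟩ := H
    exact ⟨_, c, h⟩
  induction e with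
  | zero => exact ⟨0, 1, 0, by simp⟩
  | succ e ih =>
    obtain ⟨u, v, c, ih⟩ := ih
    refine ⟨u * (1 + f) + v * f1, v * f, C ((p : ℤ) ^ e) * (u * d - v) + c * (1 - X) ^ (p ^ b * (p - 1)), ?_⟩
    have e1 : (1 - X : ℤ[X]) ^ (p ^ b + (e + 1) * (p ^ b * (p - 1))) =
        (1 - X) ^ (p ^ b + e * (p ^ b * (p - 1))) * (1 - X) ^ (p ^ b * (p - 1)) := by
      rw [← pow_add]; congr 1; ring
    rw [e1, ih]
    have e2 : (C ((p : ℤ) ^ (e + 1)) : ℤ[X]) = C ((p : ℤ) ^ e) * C (p : ℤ) := by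
      rw [← C_mul, pow_succ]
    rw [e2]
    generalize (C ((p : ℤ) ^ e) : ℤ[X]) = P at *
    generalize (C (p : ℤ) : ℤ[X]) = q at *
    generalize hW : (1 - X : ℤ[X]) ^ (p ^ b) = W at *
    generalize hV : (1 - X : ℤ[X]) ^ (p ^ b * (p - 1)) = V at *
    generalize Phi p (p ^ b) = Φ at *
    generalize (X : ℤ[X]) ^ (p ^ (b + 1)) = K at *
    generalize (X : ℤ[X]) ^ (p ^ b) = Y at *
    subst hf
    linear_combination P * u * hd + P * v * (Φ * hf1 - hK)


theorem Phi_monic (p Q : ℕ) (hp : 0 < p) (hQ : 0 < Q) : (Phi p Q).Monic := by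
  have h := Phi_mul p Q
  have h1 : (X ^ Q - 1 : ℤ[X]).Monic := monic_X_pow_sub_C 1 hQ.ne'
  have h2 : (X ^ (Q * p) - 1 : ℤ[X]).Monic := monic_X_pow_sub_C 1 (Nat.mul_pos hQ hp).ne'
  rw [← h] at h2
  exact h1.of_mul_monic_left h2

theorem dvd_of_C_mul {g h : ℤ[X]} (hg : g.Monic) {c : ℤ} (hc : c ≠ 0) (H : g ∣ C c * h) : g ∣ h := by
  rw [← modByMonic_eq_zero_iff_dvd hg] at H ⊢
  rw [← smul_eq_C_mul, smul_modByMonic] at H
  exact (smul_eq_zero.1 H).resolve_left hc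

/-- **lower bound** for the nilpotency index -/
theorem lower (p : ℕ) [Fact p.Prime] (b e : ℕ) (he : 1 ≤ e) (u v : ℤ[X])
    (h : (1 - X : ℤ[X]) ^ (p ^ b + e * (p ^ b * (p - 1)) - 1) =
      C ((p : ℤ) ^ e) * u + (X ^ (p ^ (b + 1)) - 1) * v) : False := by
  have hp : p.Prime := Fact.out
  have hp2 : 2 ≤ p := hp.two_le
  have hp0 : (p : ℤ) ≠ 0 := by exact_mod_cast hp.ne_zero
  have hpe : (p : ℤ) ^ e ≠ 0 := pow_ne_zero _ hp0
  have hQ : 0 < p ^ b := pow_pos hp.pos _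
  have hφ : p ^ b ≤ p ^ b * (p - 1) := Nat.le_mul_of_pos_right _ (by omega)
  have hφ1 : 1 ≤ e * (p ^ b * (p - 1)) := Nat.mul_pos he (lt_of_lt_of_le hQ hφ)
  have hK := Phi_mul p (p ^ b)
  rw [← pow_succ] at hK
  -- step A
  have hA : ∃ u1 v2 : ℤ[X], u = C (p : ℤ) * u1 + (X ^ (p ^ b) - 1) * v2 := by
    rcases Nat.eq_zero_or_pos b with hb | hb
    · subst hb
      have h1 := congrArg (eval 1) h
      rw [eval_pow, eval_sub, eval_one, eval_X, sub_self, zero_pow (by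
        have := lt_of_lt_of_le hQ hφ
        generalize e * (p ^ 0 * (p - 1)) = z at *
        simp only [pow_zero]
        omega)] at h1
      simp only [eval_add, eval_mul, eval_C, eval_sub, eval_pow, eval_X, one_pow, eval_one, sub_self,
        zero_mul, add_zero] at h1
      have h2 : u.eval 1 = 0 := by
        rcases mul_eq_zero.1 h1.symm with h3 | h3
        · exact absurd h3 hpe
        · exact h3
      have h3 : (X - C 1 : ℤ[X]) ∣ u := dvd_iff_isRoot.2 h2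
      obtain ⟨w, hw⟩ := h3
      exact ⟨0, w, by rw [hw]; simp⟩
    · obtain ⟨b', rfl⟩ := Nat.exists_eq_succ_of_ne_zero hb.ne'
      obtain ⟨u1, v1, h1⟩ := upper p b' (e + 1)
      rw [Nat.succ_eq_add_one] at *
      have hQ' : 0 < p ^ b' := pow_pos hp.pos _
      have hle : p ^ b' + (e + 1) * (p ^ b' * (p - 1)) ≤
          p ^ (b' + 1) + e * (p ^ (b' + 1) * (p - 1)) - 1 := by
        obtain ⟨k, rfl⟩ := Nat.exists_eq_add_of_le hp2
        have e1 : 2 + k - 1 = 1 + k := by omega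
        rw [e1, pow_succ]
        have e2 : (2 + k) ^ b' + (e + 1) * ((2 + k) ^ b' * (1 + k)) + 1 ≤
            (2 + k) ^ b' * (2 + k) + e * ((2 + k) ^ b' * (2 + k) * (1 + k)) := by
          generalize (2 + k) ^ b' = q at *
          have : 1 ≤ e * q := Nat.mul_pos he hQ'
          have e3 : q * (2 + k) + e * (q * (2 + k) * (1 + k)) =
            q + (e + 1) * (q * (1 + k)) + (e * q) * ((1 + k) * (1 + k)) := by ring
          rw [e3]
          have : 1 ≤ (e * q) * ((1 + k) * (1 + k)) := Nat.mul_pos this (by positivity)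
          omega
        omega
      obtain ⟨k, hk⟩ := Nat.exists_eq_add_of_le hle
      have h2 : (C ((p : ℤ) ^ e) : ℤ[X]) * (u - C (p : ℤ) * (u1 * (1 - X) ^ k)) =
          (X ^ (p ^ (b' + 1)) - 1) * (v1 * (1 - X) ^ k - Phi p (p ^ (b' + 1)) * v) := by
        have e1 : (C ((p : ℤ) ^ (e + 1)) : ℤ[X]) = C ((p : ℤ) ^ e) * C (p : ℤ) := by
          rw [← C_mul, pow_succ]
        rw [hk, pow_add, h1, e1] at h
        linear_combination -h + v * hK
      have h3 : (X ^ (p ^ (b' + 1)) - 1 : ℤ[X]) ∣ u - C (p : ℤ) * (u1 * (1 - X) ^ k) := by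
        have hm : (X ^ (p ^ (b' + 1)) - 1 : ℤ[X]).Monic := monic_X_pow_sub_C 1 hQ.ne'
        exact dvd_of_C_mul hm hpe ⟨_, h2⟩
      obtain ⟨v2, hv2⟩ := h3
      exact ⟨u1 * (1 - X) ^ k, v2, by linear_combination hv2⟩
  obtain ⟨u1, v2, hu⟩ := hA
  -- step B
  obtain ⟨f, hf⟩ := cong_Phi p b
  have hN : p ^ b + e * (p ^ b * (p - 1)) - 1 = (p ^ b - 1) + (p ^ b * (p - 1)) * e := by
    rw [mul_comm e]; omega
  obtain ⟨g1, hg1⟩ := sub_dvd_pow_sub_pow (Phi p (p ^ b) + C (p : ℤ) * f) (C (p : ℤ) * f) e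
  have h4 : Phi p (p ^ b) ∣ C ((p : ℤ) ^ e) * ((1 - X) ^ (p ^ b - 1) * f ^ e - u) := by
    rw [hN, pow_add, pow_mul, hf] at h
    refine ⟨(X ^ (p ^ b) - 1) * v - (1 - X) ^ (p ^ b - 1) * g1, ?_⟩
    have e1 : (C (p : ℤ) * f) ^ e = C ((p : ℤ) ^ e) * f ^ e := by
      rw [mul_pow, C_pow]
    rw [e1] at hg1
    linear_combination h - (1 - X) ^ (p ^ b - 1) * hg1 - v * hK
  have h5 := dvd_of_C_mul (Phi_monic p (p ^ b) hp.pos hQ) hpe h4
  obtain ⟨g2, hg2⟩ := h5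
  -- reduction modulo p
  have h6 := congrArg (Polynomial.map (Int.castRingHom (ZMod p))) hg2
  rw [hu] at h6
  simp only [Polynomial.map_sub, Polynomial.map_mul, Polynomial.map_pow, Polynomial.map_one, map_X,
    Polynomial.map_add, map_Phi, map_C] at h6
  have h7 : (Int.castRingHom (ZMod p)) (p : ℤ) = 0 := by simp
  rw [h7, C_0, zero_mul, zero_add] at h6
  have h8 : (X : (ZMod p)[X]) ^ (p ^ b) - 1 = - (1 - X) ^ (p ^ b) := by
    rw [sub_pow_char_pow, one_pow]; ring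
  rw [h8] at h6
  obtain ⟨k, hk⟩ := Nat.exists_eq_add_of_le hφ
  rw [hk, pow_add] at h6
  have h9 : (1 - X : (ZMod p)[X]) ^ (p ^ b) = (1 - X) ^ (p ^ b - 1) * (1 - X) := by
    rw [← pow_succ]; congr 1; omega
  have hne : ((1 - X : (ZMod p)[X])) ^ (p ^ b - 1) ≠ 0 := by
    apply pow_ne_zero
    intro h
    have := congrArg (eval 0) h
    simp at this
  have h10 : (f.map (Int.castRingHom (ZMod p))) ^ e =
      (1 - X) * ((1 - X) ^ k * g2.map (Int.castRingHom (ZMod p)) - v2.map (Int.castRingHom (ZMod p))) := by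
    apply mul_left_cancel₀ hne
    rw [h9] at h6
    linear_combination h6
  have h11 := congrArg (eval 1) h10
  rw [eval_mul, eval_sub, eval_one, eval_X, sub_self, zero_mul, eval_pow] at h11
  have h12 := (pow_eq_zero_iff (by omega : e ≠ 0)).1 h11
  have h13 : f.eval 1 = -1 := by
    have h14 := congrArg (eval 1) hf
    rw [eval_pow, eval_sub, eval_one, eval_X, sub_self, zero_pow (by have := lt_of_lt_of_le hQ hφ; omega),
      eval_add, Phi_eval_one, eval_mul, eval_C] at h14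
    have h15 : (p : ℤ) * (1 + f.eval 1) = 0 := by linear_combination -h14
    rcases mul_eq_zero.1 h15 with h16 | h16
    · exact absurd h16 hp0
    · linarith
  have h17 : eval 1 (f.map (Int.castRingHom (ZMod p))) = Int.castRingHom (ZMod p) (f.eval 1) := by
    rw [eval_one_map]
  rw [h17, h13] at h12
  simp at h12


/-! ### the ideal generated by `q` and `X ^ n - 1` -/

/-- `f` lies in the ideal of `ℤ[X]` generated by `q` and `g` -/
def Z (q : ℕ) (g f : ℤ[X]) : Prop := ∃ A B : ℤ[X], f = C (q : ℤ) * A + g * B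

theorem Z_mul {q : ℕ} {g f : ℤ[X]} (h : Z q g f) (k : ℤ[X]) : Z q g (f * k) := by
  obtain ⟨A, B, rfl⟩ := h
  exact ⟨A * k, B * k, by ring⟩

theorem Z_add {q : ℕ} {g f f' : ℤ[X]} (h : Z q g f) (h' : Z q g f') : Z q g (f + f') := by
  obtain ⟨A, B, rfl⟩ := h
  obtain ⟨A', B', rfl⟩ := h'
  exact ⟨A + A', B + B', by ring⟩

theorem Z_of_dvd {q : ℕ} {g h f : ℤ[X]} (hgh : g ∣ h) (H : Z q h f) : Z q g f := by
  obtain ⟨A, B, rfl⟩ := H
  obtain ⟨k, rfl⟩ := hgh
  exact ⟨A, k * B, by ring⟩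

theorem Z_of_dvd' {q q' : ℕ} {g f : ℤ[X]} (hq : q ∣ q') (H : Z q' g f) : Z q g f := by
  obtain ⟨A, B, rfl⟩ := H
  obtain ⟨k, rfl⟩ := hq
  exact ⟨C (k : ℤ) * A, B, by push_cast; rw [C_mul]; ring⟩

theorem Z_iff {q : ℕ} {g f : ℤ[X]} (hg : g.Monic) :
    Z q g f ↔ ∀ i, (q : ℤ) ∣ (f %ₘ g).coeff i := by
  constructor
  · rintro ⟨A, B, rfl⟩ i
    rw [add_modByMonic, mul_comm g B, mul_self_modByMonic hg, add_zero, ← smul_eq_C_mul,
      smul_modByMonic, coeff_smul, smul_eq_mul]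
    exact dvd_mul_right _ _
  · intro h
    have h1 : C (q : ℤ) ∣ f %ₘ g := (C_dvd_iff_dvd_coeff _ _).2 h
    obtain ⟨A, hA⟩ := h1
    exact ⟨A, f /ₘ g, by rw [← hA, modByMonic_add_div f g]⟩

/-- the powers of `1 + X` are eventually periodic modulo the ideal -/
theorem pigeon {q : ℕ} (hq : 0 < q) {g : ℤ[X]} (hg : g.Monic) :
    ∃ k P : ℕ, 0 < P ∧ Z q g ((1 + X) ^ k * ((1 + X) ^ P - 1)) := by
  have : NeZero q := ⟨hq.ne'⟩
  let φ : ℕ → (Fin g.natDegree → ZMod q) := fun k i => (((1 + X) ^ k %ₘ g).coeff i : ZMod q)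
  obtain ⟨k, l, hkl, h⟩ := Finite.exists_ne_map_eq_of_infinite φ
  wlog hlt : k < l generalizing k l
  · exact this l k hkl.symm h.symm (by omega)
  refine ⟨k, l - k, by omega, ?_⟩
  rw [Z_iff hg]
  intro i
  have e : ((1 + X) ^ k * ((1 + X) ^ (l - k) - 1) : ℤ[X]) = (1 + X) ^ l - (1 + X) ^ k := by
    rw [mul_sub, mul_one, ← pow_add]
    congr 2
    omega
  rw [e, sub_modByMonic, coeff_sub]
  by_cases hi : i < g.natDegree
  · have h1 := congrFun h ⟨i, hi⟩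
    simp only [φ] at h1
    rw [← ZMod.intCast_zmod_eq_zero_iff_dvd, Int.cast_sub, h1, sub_self]
  · by_cases hg1 : g = 1
    · subst hg1; simp
    · have h2 : ∀ f : ℤ[X], (f %ₘ g).coeff i = 0 := fun f =>
        coeff_eq_zero_of_natDegree_lt (lt_of_lt_of_le (natDegree_modByMonic_lt f hg hg1) (by omega))
      rw [h2, h2]
      simp

/-- `1 + X` has finite order modulo `(p ^ e, h)` if `p` does not divide `h (-1)` -/
theorem finite_order {p e : ℕ} (hp : p.Prime) {h : ℤ[X]} (hm : h.Monic)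
    (hc : ¬ (p : ℤ) ∣ h.eval (-1)) : ∃ P : ℕ, 0 < P ∧ Z (p ^ e) h ((1 + X) ^ P - 1) := by
  obtain ⟨k, P, hP, H⟩ := pigeon (q := p ^ e) (pow_pos hp.pos _) hm
  refine ⟨P, hP, ?_⟩
  -- an inverse of `1 + X`
  have h1 : ∃ w : ℤ[X], Z (p ^ e) h ((1 + X) * w - 1) := by
    have h2 : IsCoprime ((p ^ e : ℕ) : ℤ) (h.eval (-1)) := by
      push_cast
      apply IsCoprime.pow_left
      rw [Int.isCoprime_iff_gcd_eq_one, ← Int.natAbs_natCast p] at *
      have h3 := (Nat.Prime.coprime_iff_not_dvd hp).2 (fun h4 => hc (by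
        rw [Int.natAbs_natCast]
        exact Int.natCast_dvd.2 h4) : ¬ p ∣ (h.eval (-1)).natAbs)
      simpa [Int.gcd] using h3
    obtain ⟨a, b, hab⟩ := h2
    have h3 : (X - C (-1) : ℤ[X]) ∣ h - C (h.eval (-1)) := by
      rw [dvd_iff_isRoot]
      simp
    obtain ⟨w, hw⟩ := h3
    refine ⟨-(C b * w), C (-a), -C b, ?_⟩
    have e1 : (X - C (-1) : ℤ[X]) = 1 + X := by simp; ring
    rw [e1] at hw
    have e2 : (C (((p ^ e : ℕ) : ℤ)) : ℤ[X]) * C a + C (h.eval (-1)) * C b = 1 := by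
      rw [← C_mul, ← C_mul, ← C_add, ← C_1]
      congr 1
      linear_combination hab
    rw [C_neg]
    linear_combination C b * hw + e2
  obtain ⟨w, hw⟩ := h1
  have h2 : Z (p ^ e) h (((1 + X) * w) ^ k - 1) := by
    obtain ⟨c, hc⟩ := sub_dvd_pow_sub_pow ((1 + X) * w) (1 : ℤ[X]) k
    rw [one_pow] at hc
    rw [hc]
    exact Z_mul hw c
  have h3 : (1 + X : ℤ[X]) ^ P - 1 = (1 + X) ^ k * ((1 + X) ^ P - 1) * w ^ k +
      (((1 + X) * w) ^ k - 1) * (1 - (1 + X) ^ P) := by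
    rw [mul_pow]; ring
  rw [h3]
  exact Z_add (Z_mul H _) (Z_mul h2 _)

/-- gluing -/
theorem local_upper {p e : ℕ} (hp : p.Prime) {g h : ℤ[X]} (hm : h.Monic)
    (hc : ¬ (p : ℤ) ∣ h.eval (-1)) {F : ℕ} (hF : Z (p ^ e) g ((1 + X) ^ F)) :
    ∃ P : ℕ, 0 < P ∧ Z (p ^ e) (g * h) ((1 + X) ^ F * ((1 + X) ^ P - 1)) := by
  obtain ⟨P, hP, A, B, H⟩ := finite_order (e := e) hp hm hc
  obtain ⟨A', B', hF⟩ := hF
  refine ⟨P, hP, ?_⟩
  rw [H, hF]
  exact ⟨A' * (C ((p ^ e : ℕ) : ℤ) * A + h * B) + g * B' * A, B' * B, by ring⟩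

theorem local_lower {q : ℕ} {g h : ℤ[X]} {F N : ℕ} (hF : Z q g ((1 + X) ^ F))
    (hN : ¬ Z q g ((1 + X) ^ N)) {P : ℕ} (hP : 0 < P) :
    ¬ Z q (g * h) ((1 + X) ^ N * ((1 + X) ^ P - 1)) := by
  intro H
  have H1 := Z_of_dvd (Dvd.intro h rfl) H
  apply hN
  obtain ⟨c, hc⟩ := sub_dvd_pow_sub_pow ((1 + X : ℤ[X]) ^ P) 1 F
  rw [one_pow] at hc
  have h1 : Z q g ((1 + X) ^ N * (((1 + X) ^ P) ^ F - 1)) := by
    rw [hc, ← mul_assoc]
    exact Z_mul H1 c
  have h2 : Z q g (((1 + X) ^ P) ^ F * (1 + X) ^ N) := by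
    obtain ⟨k, hk⟩ := Nat.exists_eq_add_of_le (Nat.le_mul_of_pos_left F hP)
    rw [← pow_mul, hk, pow_add, mul_assoc]
    exact Z_mul hF _
  have h3 : (1 + X : ℤ[X]) ^ N = ((1 + X) ^ P) ^ F * (1 + X) ^ N +
      ((1 + X) ^ N * (((1 + X) ^ P) ^ F - 1)) * (-1) := by ring
  rw [h3]
  exact Z_add h2 (Z_mul h1 _)


/-! ### the local contributions -/

/-- the contribution of the prime `p` to the largest pre-period modulo `m`, `n` -/
def loc (m n p : ℕ) : ℕ :=
  if n.factorization p = 0 then (if p = 2 then m.factorization p else 1)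
  else if p ≠ 2 ∧ ¬ 2 ∣ n then 1
  else p ^ (n.factorization p - 1) * (p + (m.factorization p - 1) * (p - 1))

theorem X_pow_sub_one_monic {n : ℕ} (hn : 0 < n) : (X ^ n - 1 : ℤ[X]).Monic :=
  monic_X_pow_sub_C 1 hn.ne'

/-- the value at `-1` of the cofactor -/
theorem cofactor {n Q n' : ℕ} (hn : n = Q * n') (hQ : 0 < Q) {c : ℤ} {g h : ℤ[X]}
    (hgh : (X ^ n - 1 : ℤ[X]) = g * h) (hg : g = X ^ Q + C c) (hg1 : g.eval (-1) = 0) :
    h.eval (-1) = n' ∨ h.eval (-1) = -n' := by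
  have h1 := congrArg (fun f => (derivative f).eval (-1)) hgh
  simp only [derivative_sub, derivative_X_pow, derivative_one, sub_zero, derivative_mul, eval_add,
    eval_mul, hg1, zero_mul, add_zero, eval_pow, eval_X, map_natCast, eval_natCast] at h1
  rw [hg] at h1
  simp only [derivative_add, derivative_X_pow, derivative_C, add_zero, eval_mul, eval_pow, eval_X,
    map_natCast, eval_natCast] at h1
  have hQ0 : (Q : ℤ) ≠ 0 := by exact_mod_cast hQ.ne'
  have h3 : ∀ k : ℕ, (-1 : ℤ) ^ k = 1 ∨ (-1 : ℤ) ^ k = -1 := fun k => neg_one_pow_eq_or ℤ k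
  have hcast : (n : ℤ) = Q * n' := by exact_mod_cast hn
  rw [hcast] at h1
  rcases h3 (n - 1) with ha | ha <;> rcases h3 (Q - 1) with hb | hb <;> rw [ha, hb] at h1
  · left
    apply mul_left_cancel₀ hQ0
    linear_combination -h1
  · right
    apply mul_left_cancel₀ hQ0
    linear_combination h1
  · right
    apply mul_left_cancel₀ hQ0
    linear_combination -h1
  · left
    apply mul_left_cancel₀ hQ0
    linear_combination h1

/-- the nilpotency index in the factor, upper bound; `s = 1` or `-1` is the constant term -/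
theorem factor_upper {p : ℕ} (hp : p.Prime) (b e : ℕ) {g : ℤ[X]}
    (hg : (p = 2 ∧ g = X ^ (p ^ (b + 1)) - 1) ∨ (p ≠ 2 ∧ g = X ^ (p ^ (b + 1)) + 1)) :
    Z (p ^ e) g ((1 + X) ^ (p ^ b + e * (p ^ b * (p - 1)))) := by
  have := Fact.mk hp
  obtain ⟨u, c, h⟩ := upper p b e
  have h1 := congrArg (fun f : ℤ[X] => f.comp (-X)) h
  simp only [pow_comp, sub_comp, one_comp, X_comp, add_comp, mul_comp, C_comp, sub_neg_eq_add] at h1
  rw [h1]
  rcases hg with ⟨h2, rfl⟩ | ⟨h2, rfl⟩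
  · refine ⟨u.comp (-X), c.comp (-X), ?_⟩
    have h3 : (-X : ℤ[X]) ^ (p ^ (b + 1)) = X ^ (p ^ (b + 1)) := by
      subst h2
      exact Even.neg_pow (by rw [Nat.even_pow]; exact ⟨even_two, by omega⟩) X
    rw [h3]
    push_cast
    rfl
  · refine ⟨u.comp (-X), -c.comp (-X), ?_⟩
    have h3 : (-X : ℤ[X]) ^ (p ^ (b + 1)) = -X ^ (p ^ (b + 1)) :=
      Odd.neg_pow ((hp.odd_of_ne_two h2).pow) X
    rw [h3]
    push_cast
    ring

/-- the nilpotency index in the factor, lower bound -/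
theorem factor_lower {p : ℕ} (hp : p.Prime) (b e : ℕ) (he : 1 ≤ e) {g : ℤ[X]}
    (hg : (p = 2 ∧ g = X ^ (p ^ (b + 1)) - 1) ∨ (p ≠ 2 ∧ g = X ^ (p ^ (b + 1)) + 1)) {N : ℕ}
    (hN : N < p ^ b + e * (p ^ b * (p - 1))) :
    ¬ Z (p ^ e) g ((1 + X) ^ N) := by
  have := Fact.mk hp
  intro H
  obtain ⟨k, hk⟩ := Nat.exists_eq_add_of_le (Nat.le_sub_one_of_lt hN)
  have H1 : Z (p ^ e) g ((1 + X) ^ (p ^ b + e * (p ^ b * (p - 1)) - 1)) := by
    rw [hk, pow_add]
    exact Z_mul H _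
  obtain ⟨u, v, h⟩ := H1
  have h1 := congrArg (fun f : ℤ[X] => f.comp (-X)) h
  simp only [pow_comp, add_comp, one_comp, X_comp, mul_comp, C_comp, ← sub_eq_add_neg] at h1
  rcases hg with ⟨h2, rfl⟩ | ⟨h2, rfl⟩
  · have h3 : (-X : ℤ[X]) ^ (p ^ (b + 1)) = X ^ (p ^ (b + 1)) := by
      subst h2
      exact Even.neg_pow (by rw [Nat.even_pow]; exact ⟨even_two, by omega⟩) X
    refine lower p b e he (u.comp (-X)) (v.comp (-X)) ?_
    rw [h1]
    simp only [sub_comp, pow_comp, X_comp, one_comp, h3]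
    push_cast
    rfl
  · have h3 : (-X : ℤ[X]) ^ (p ^ (b + 1)) = -X ^ (p ^ (b + 1)) :=
      Odd.neg_pow ((hp.odd_of_ne_two h2).pow) X
    refine lower p b e he (u.comp (-X)) (-v.comp (-X)) ?_
    rw [h1]
    simp only [add_comp, pow_comp, X_comp, one_comp, h3]
    push_cast
    ring

theorem index_eq {p b e : ℕ} (hp : p.Prime) (he : 1 ≤ e) :
    p ^ b * (p + (e - 1) * (p - 1)) = p ^ b + e * (p ^ b * (p - 1)) := by
  obtain ⟨k, rfl⟩ := Nat.exists_eq_add_of_le hp.one_lt.le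
  obtain ⟨l, rfl⟩ := Nat.exists_eq_add_of_le he
  simp only [Nat.add_sub_cancel_left]
  ring


theorem not_dvd_two {p : ℕ} (hp : p.Prime) (h2 : p ≠ 2) : ¬ (p : ℤ) ∣ -2 := by
  rw [dvd_neg]
  intro h
  have h1 : p ∣ 2 := by exact_mod_cast h
  exact h2 ((Nat.prime_dvd_prime_iff_eq hp Nat.prime_two).1 h1)

/-- the factorisation of `X ^ n - 1` in the main case -/
theorem split {n p b : ℕ} (hn : 0 < n) (hp : p.Prime) (hb : n.factorization p = b + 1)
    (h : p = 2 ∨ 2 ∣ n) :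
    ∃ g k : ℤ[X], (X ^ n - 1 : ℤ[X]) = g * k ∧ k.Monic ∧ ¬ (p : ℤ) ∣ k.eval (-1) ∧
      ((p = 2 ∧ g = X ^ (p ^ (b + 1)) - 1) ∨ (p ≠ 2 ∧ g = X ^ (p ^ (b + 1)) + 1)) := by
  have hQ : 0 < p ^ (b + 1) := pow_pos hp.pos _
  have hn1 : n = p ^ (b + 1) * (n / p ^ (b + 1)) := by
    rw [← hb]; exact (Nat.ordProj_mul_ordCompl_eq_self n p).symm
  have hn2 : ¬ p ∣ n / p ^ (b + 1) := by
    rw [← hb]; exact Nat.not_dvd_ordCompl hp hn.ne'
  set n' := n / p ^ (b + 1) with hn'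
  have hn3 : ¬ (p : ℤ) ∣ (n' : ℤ) := by exact_mod_cast hn2
  have key : ∀ g : ℤ[X], g.Monic → g ∣ (X ^ n - 1 : ℤ[X]) → ∀ c : ℤ, g = X ^ (p ^ (b + 1)) + C c →
      g.eval (-1) = 0 → ∃ k : ℤ[X], (X ^ n - 1 : ℤ[X]) = g * k ∧ k.Monic ∧ ¬ (p : ℤ) ∣ k.eval (-1) := by
    intro g hg hdvd c hc h0
    obtain ⟨k, hk⟩ := hdvd
    refine ⟨k, hk, ?_, ?_⟩
    · have := X_pow_sub_one_monic hn
      rw [hk] at this
      exact hg.of_mul_monic_left this
    · rcases cofactor hn1 hQ hk hc h0 with h1 | h1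
      · rwa [h1]
      · rwa [h1, dvd_neg]
  by_cases hp2 : p = 2
  · obtain ⟨k, h1, h2, h3⟩ := key (X ^ (p ^ (b + 1)) - 1) (X_pow_sub_one_monic hQ) (by
      have := sub_dvd_pow_sub_pow (X ^ (p ^ (b + 1)) : ℤ[X]) 1 n'
      rwa [one_pow, ← pow_mul, ← hn1] at this) (-1) (by simp [sub_eq_add_neg]) (by
      subst hp2
      simp only [eval_sub, eval_pow, eval_X, eval_one]
      rw [Even.neg_one_pow (by rw [Nat.even_pow]; exact ⟨even_two, by omega⟩)]
      simp)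
    exact ⟨_, k, h1, h2, h3, Or.inl ⟨hp2, rfl⟩⟩
  · have h2n : 2 ∣ n := h.resolve_left hp2
    have hodd : Odd (p ^ (b + 1)) := (hp.odd_of_ne_two hp2).pow
    have h2n' : 2 ∣ n' := by
      rw [hn1] at h2n
      rcases (Nat.Prime.dvd_mul Nat.prime_two).1 h2n with h3 | h3
      · exact absurd (even_iff_two_dvd.2 h3) (Nat.not_even_iff_odd.2 hodd)
      · exact h3
    obtain ⟨k, h1, h2, h3⟩ := key (X ^ (p ^ (b + 1)) + 1) (monic_X_pow_add_C 1 hQ.ne') (by
      obtain ⟨l, hl⟩ := h2n'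
      have h4 : (X ^ (p ^ (b + 1)) + 1 : ℤ[X]) ∣ (X ^ (p ^ (b + 1))) ^ 2 - 1 := ⟨X ^ (p ^ (b + 1)) - 1, by ring⟩
      have h5 := sub_dvd_pow_sub_pow ((X ^ (p ^ (b + 1)) : ℤ[X]) ^ 2) 1 l
      rw [one_pow, ← pow_mul, ← pow_mul, mul_assoc, ← hl, ← hn1] at h5
      rw [← pow_mul] at h4
      exact h4.trans h5) 1 (by simp) (by
      simp only [eval_add, eval_pow, eval_X, eval_one]
      rw [hodd.neg_one_pow]
      simp)
    exact ⟨_, k, h1, h2, h3, Or.inr ⟨hp2, rfl⟩⟩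

/-- the factorisation of `X ^ n - 1` for odd `n` and `p = 2` -/
theorem split2 {n : ℕ} (hn : 0 < n) (hodd : ¬ 2 ∣ n) :
    ∃ k : ℤ[X], (X ^ n - 1 : ℤ[X]) = (X - 1) * k ∧ k.Monic ∧ ¬ ((2 : ℕ) : ℤ) ∣ k.eval (-1) := by
  have h1 := sub_dvd_pow_sub_pow (X : ℤ[X]) 1 n
  rw [one_pow] at h1
  obtain ⟨k, hk⟩ := h1
  refine ⟨k, hk, ?_, ?_⟩
  · have := X_pow_sub_one_monic hn
    rw [hk] at this
    exact (monic_X_sub_C (1 : ℤ)).of_mul_monic_left (by simpa using this)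
  · have h2 := congrArg (eval (-1)) hk
    have hodd' : Odd n := by
      rw [← Nat.not_even_iff_odd, even_iff_two_dvd]; exact hodd
    simp only [eval_sub, eval_pow, eval_X, eval_one, eval_mul, hodd'.neg_one_pow] at h2
    have h3 : k.eval (-1) = 1 := by linarith
    rw [h3]
    norm_num

theorem odd_unit {n p e F : ℕ} (hn : 0 < n) (hp : p.Prime) (h2 : p ≠ 2) (hodd : ¬ 2 ∣ n) :
    ∃ P : ℕ, 0 < P ∧ Z (p ^ e) (X ^ n - 1) ((1 + X) ^ F * ((1 + X) ^ P - 1)) := by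
  have hodd' : Odd n := by
    rw [← Nat.not_even_iff_odd, even_iff_two_dvd]; exact hodd
  have h := local_upper (e := e) (g := 1) (F := F) hp (X_pow_sub_one_monic hn) (by
    simp only [eval_sub, eval_pow, eval_X, eval_one, hodd'.neg_one_pow]
    norm_num
    have := not_dvd_two hp h2
    rwa [dvd_neg] at this) ⟨0, (1 + X) ^ F, by ring⟩
  rwa [one_mul] at h

theorem prime_upper {m n p : ℕ} (hn : 0 < n) (hp : p.Prime) (he : 1 ≤ m.factorization p) :
    ∃ P : ℕ, 0 < P ∧ Z (p ^ m.factorization p) (X ^ n - 1)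
      ((1 + X) ^ (loc m n p) * ((1 + X) ^ P - 1)) := by
  unfold loc
  split_ifs with h1 h2 h3
  · subst h2
    have hodd : ¬ 2 ∣ n := fun h => by
      have := (Nat.Prime.dvd_iff_one_le_factorization Nat.prime_two hn.ne').1 h
      omega
    obtain ⟨k, hk, hm, hc⟩ := split2 hn hodd
    rw [hk]
    refine local_upper hp hm hc ?_
    obtain ⟨c, hc⟩ := sub_dvd_pow_sub_pow (1 + X : ℤ[X]) 2 (m.factorization 2)
    refine ⟨1, c, ?_⟩
    push_cast
    have e1 : (C ((2 : ℤ) ^ m.factorization 2) : ℤ[X]) = 2 ^ m.factorization 2 := by simp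
    rw [e1]
    linear_combination hc
  · by_cases h3 : 2 ∣ n
    · have hdvd : (X + 1 : ℤ[X]) ∣ X ^ n - 1 := by
        obtain ⟨l, rfl⟩ := h3
        have h5 := sub_dvd_pow_sub_pow ((X : ℤ[X]) ^ 2) 1 l
        rw [one_pow, ← pow_mul] at h5
        exact Dvd.dvd.trans ⟨X - 1, by ring⟩ h5
      obtain ⟨k, hk⟩ := hdvd
      have hm : k.Monic := by
        have := X_pow_sub_one_monic hn
        rw [hk] at this
        exact (monic_X_add_C (1 : ℤ)).of_mul_monic_left (by simpa using this)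
      have hpn : ¬ (p : ℤ) ∣ (n : ℤ) := by
        intro h
        have h' : p ∣ n := by exact_mod_cast h
        have := (Nat.Prime.dvd_iff_one_le_factorization hp hn.ne').1 h'
        omega
      have hc : ¬ (p : ℤ) ∣ k.eval (-1) := by
        rcases cofactor (n := n) (Q := 1) (n' := n) (by ring) one_pos hk (c := 1) (by simp) (by simp)
          with h4 | h4
        · rwa [h4]
        · rwa [h4, dvd_neg]
      rw [hk]
      refine local_upper hp hm hc ⟨0, 1, by ring⟩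
    · exact odd_unit hn hp h2 h3
  · exact odd_unit hn hp h3.1 h3.2
  · obtain ⟨b, hb⟩ := Nat.exists_eq_succ_of_ne_zero h1
    rw [Nat.succ_eq_add_one] at hb
    have h4 : p = 2 ∨ 2 ∣ n := by
      by_contra h5
      push Not at h5
      exact h3 h5
    obtain ⟨g, k, hk, hm, hc, hg⟩ := split hn hp hb h4
    rw [hk, hb, Nat.add_sub_cancel, index_eq hp he]
    exact local_upper hp hm hc (factor_upper hp b _ hg)

theorem prime_lower {m n p : ℕ} (hn : 0 < n) (hp : p.Prime) (he : 1 ≤ m.factorization p) {N : ℕ}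
    (hN1 : 1 ≤ N) (hN : N < loc m n p) {P : ℕ} (hP : 0 < P) :
    ¬ Z (p ^ m.factorization p) (X ^ n - 1) ((1 + X) ^ N * ((1 + X) ^ P - 1)) := by
  unfold loc at hN
  split_ifs at hN with h1 h2 h3
  · subst h2
    have hodd : ¬ 2 ∣ n := fun h => by
      have := (Nat.Prime.dvd_iff_one_le_factorization Nat.prime_two hn.ne').1 h
      omega
    obtain ⟨k, hk, hm, hc⟩ := split2 hn hodd
    rw [hk]
    refine local_lower (F := m.factorization 2) ?_ ?_ hP
    · obtain ⟨c, hc⟩ := sub_dvd_pow_sub_pow (1 + X : ℤ[X]) 2 (m.factorization 2)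
      refine ⟨1, c, ?_⟩
      push_cast
      have e1 : (C ((2 : ℤ) ^ m.factorization 2) : ℤ[X]) = 2 ^ m.factorization 2 := by simp
      rw [e1]
      linear_combination hc
    · rintro ⟨A, B, h⟩
      have h4 := congrArg (eval 1) h
      simp only [eval_pow, eval_add, eval_one, eval_X, eval_mul, eval_C, eval_sub, sub_self, zero_mul,
        add_zero] at h4
      have h5 : (2 : ℤ) ^ m.factorization 2 ∣ 2 ^ N := ⟨A.eval 1, by
        rw [show (2 : ℤ) ^ N = (1 + 1) ^ N by norm_num, h4]; push_cast; ring⟩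
      have h6 : 2 ^ m.factorization 2 ∣ 2 ^ N := by exact_mod_cast h5
      have := (Nat.pow_dvd_pow_iff_le_right (by norm_num : 1 < 2)).1 h6
      omega
  · omega
  · omega
  · obtain ⟨b, hb⟩ := Nat.exists_eq_succ_of_ne_zero h1
    rw [Nat.succ_eq_add_one] at hb
    have h4 : p = 2 ∨ 2 ∣ n := by
      by_contra h5
      push Not at h5
      exact h3 h5
    obtain ⟨g, k, hk, hm, hc, hg⟩ := split hn hp hb h4
    rw [hb, Nat.add_sub_cancel, index_eq hp he] at hN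
    rw [hk]
    exact local_lower (factor_upper hp b _ hg) (factor_lower hp b _ he hg hN) hP


/-! ### all primes together -/

/-- the largest pre-period -/
def Nmax (m n : ℕ) : ℕ := max 1 (m.primeFactors.sup (loc m n))

theorem one_le_factorization {m p : ℕ} (h : p ∈ m.primeFactors) : 1 ≤ m.factorization p :=
  (Nat.Prime.dvd_iff_one_le_factorization (Nat.prime_of_mem_primeFactors h)
    (Nat.mem_primeFactors.1 h).2.2).1 (Nat.dvd_of_mem_primeFactors h)

theorem global_upper {m n : ℕ} (hm : 0 < m) (hn : 0 < n) :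
    ∃ P : ℕ, 0 < P ∧ Z m (X ^ n - 1) ((1 + X) ^ (Nmax m n) * ((1 + X) ^ P - 1)) := by
  have h : ∀ p : ℕ, ∃ P : ℕ, 0 < P ∧ (p ∈ m.primeFactors → Z (p ^ m.factorization p) (X ^ n - 1)
      ((1 + X) ^ (loc m n p) * ((1 + X) ^ P - 1))) := by
    intro p
    by_cases hp : p ∈ m.primeFactors
    · obtain ⟨P, h1, h2⟩ := prime_upper hn (Nat.prime_of_mem_primeFactors hp) (one_le_factorization hp)
      exact ⟨P, h1, fun _ => h2⟩
    · exact ⟨1, one_pos, fun h => absurd h hp⟩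
  choose P hP hZ using h
  refine ⟨∏ p ∈ m.primeFactors, P p, Finset.prod_pos fun p _ => hP p, ?_⟩
  rw [Z_iff (X_pow_sub_one_monic hn)]
  intro i
  rw [Int.natCast_dvd, Nat.dvd_iff_prime_pow_dvd_dvd]
  intro p k hp hk
  rcases Nat.eq_zero_or_pos k with rfl | hk0
  · simp
  have hpm : p ∈ m.primeFactors := Nat.mem_primeFactors.2
    ⟨hp, (dvd_pow_self p hk0.ne').trans hk, hm.ne'⟩
  have hk1 : p ^ k ∣ p ^ m.factorization p :=
    pow_dvd_pow _ ((hp.pow_dvd_iff_le_factorization hm.ne').1 hk)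
  have h1 : Z (p ^ m.factorization p) (X ^ n - 1)
      ((1 + X) ^ (Nmax m n) * ((1 + X) ^ (∏ p ∈ m.primeFactors, P p) - 1)) := by
    have hle : loc m n p ≤ Nmax m n :=
      (Finset.le_sup (f := loc m n) hpm).trans (le_max_right _ _)
    obtain ⟨a, ha⟩ := Nat.exists_eq_add_of_le hle
    obtain ⟨b, hb⟩ : P p ∣ ∏ p ∈ m.primeFactors, P p := Finset.dvd_prod_of_mem _ hpm
    obtain ⟨c, hc⟩ := sub_dvd_pow_sub_pow ((1 + X : ℤ[X]) ^ P p) 1 b
    rw [one_pow, ← pow_mul, ← hb] at hc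
    have e : (1 + X : ℤ[X]) ^ (Nmax m n) * ((1 + X) ^ (∏ p ∈ m.primeFactors, P p) - 1) =
        ((1 + X) ^ (loc m n p) * ((1 + X) ^ P p - 1)) * ((1 + X) ^ a * c) := by
      rw [hc, ha, pow_add]; ring
    rw [e]
    exact Z_mul (hZ p hpm) _
  have h2 := (Z_iff (X_pow_sub_one_monic hn)).1 h1 i
  exact hk1.trans (Int.natCast_dvd.1 h2)

/-! ### the dynamics -/

/-- the cyclic sum map on `(ℤ / m) ^ n` -/
def T {m n : ℕ} (a : ZMod n → ZMod m) : ZMod n → ZMod m := fun i => a i + a (i + 1)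

/-- the cycle length `P(a)` -/
noncomputable def cycleLength {m n : ℕ} (a : ZMod n → ZMod m) : ℕ :=
  sInf {P : ℕ | 0 < P ∧ ∃ N : ℕ, 0 < N ∧ ∀ k, N ≤ k → T^[k + P] a = T^[k] a}

/-- the pre-period `N(a)` -/
noncomputable def prePeriod {m n : ℕ} (a : ZMod n → ZMod m) : ℕ :=
  sInf {N : ℕ | 0 < N ∧ ∀ k, N ≤ k → T^[k + cycleLength a] a = T^[k] a}

/-- the cyclic shift -/
def S (m n : ℕ) : (ZMod n → ZMod m) →ₗ[ℤ] (ZMod n → ZMod m) :=
  LinearMap.funLeft ℤ (ZMod m) (fun i => i + 1)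

theorem S_pow (m n k : ℕ) (a : ZMod n → ZMod m) (i : ZMod n) : ((S m n) ^ k) a i = a (i + k) := by
  induction k generalizing i with
  | zero => simp
  | succ k ih =>
    rw [pow_succ', Module.End.mul_apply]
    unfold S at *
    rw [LinearMap.funLeft_apply, ih]
    congr 1
    push_cast
    ring

theorem T_iterate {m n : ℕ} (a : ZMod n → ZMod m) (k : ℕ) :
    T^[k] a = aeval (S m n) ((1 + X) ^ k : ℤ[X]) a := by
  rw [map_pow, Module.End.pow_apply]
  congr 1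
  funext b i
  simp [T, S, LinearMap.funLeft_apply]

theorem aeval_zero {m n : ℕ} {f : ℤ[X]} (h : Z m (X ^ n - 1) f) : aeval (S m n) f = 0 := by
  obtain ⟨A, B, rfl⟩ := h
  have h1 : aeval (S m n) (X ^ n - 1 : ℤ[X]) = 0 := by
    rw [map_sub, map_pow, aeval_X, map_one, sub_eq_zero]
    ext a i
    simp [S_pow]
  have h2 : aeval (S m n) (C (m : ℤ)) = 0 := by
    ext a i
    simp
  rw [map_add, map_mul, map_mul, h1, h2]
  simp

theorem Z_of_single {m n : ℕ} (hn : 0 < n) {f : ℤ[X]}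
    (h : aeval (S m n) f (Pi.single (0 : ZMod n) (1 : ZMod m)) = 0) : Z m (X ^ n - 1) f := by
  have hg := X_pow_sub_one_monic hn
  rw [Z_iff hg]
  intro j
  have hdeg : (X ^ n - 1 : ℤ[X]).natDegree = n := natDegree_X_pow_sub_C (r := (1 : ℤ))
  have hne : (X ^ n - 1 : ℤ[X]) ≠ 1 := by
    intro h1
    rw [h1] at hdeg
    simp at hdeg
    omega
  have hlt : (f %ₘ (X ^ n - 1)).natDegree < n := by
    have := natDegree_modByMonic_lt f hg hne
    rwa [hdeg] at this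
  by_cases hj : j < n
  · have h1 : aeval (S m n) (f %ₘ (X ^ n - 1)) = aeval (S m n) f := by
      conv_rhs => rw [← modByMonic_add_div f (X ^ n - 1)]
      rw [map_add, map_mul, aeval_zero (f := X ^ n - 1) ⟨0, 1, by ring⟩]
      simp
    rw [← h1, aeval_eq_sum_range' hlt] at h
    have h2 := congrFun h (-(j : ZMod n))
    rw [LinearMap.sum_apply, Finset.sum_apply, Finset.sum_eq_single j] at h2
    · rw [LinearMap.smul_apply, Pi.smul_apply, S_pow, neg_add_cancel, Pi.single_eq_same] at h2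
      rw [← ZMod.intCast_zmod_eq_zero_iff_dvd]
      simpa using h2
    · intro b hb hbj
      rw [LinearMap.smul_apply, Pi.smul_apply, S_pow, Pi.single_eq_of_ne, smul_zero]
      intro h3
      apply hbj
      have h4 : (b : ZMod n) = (j : ZMod n) := by linear_combination h3
      rw [ZMod.natCast_eq_natCast_iff'] at h4
      rwa [Nat.mod_eq_of_lt (Finset.mem_range.1 hb), Nat.mod_eq_of_lt hj] at h4
    · intro h3
      exact absurd (Finset.mem_range.2 hj) h3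
  · rw [coeff_eq_zero_of_natDegree_lt (by omega)]
    exact dvd_zero _

theorem eq_of_Z {m n k P : ℕ} (h : Z m (X ^ n - 1) ((1 + X) ^ k * ((1 + X) ^ P - 1)))
    (a : ZMod n → ZMod m) : T^[k + P] a = T^[k] a := by
  have h1 := aeval_zero h
  have e : ((1 + X) ^ k * ((1 + X) ^ P - 1) : ℤ[X]) = (1 + X) ^ (k + P) - (1 + X) ^ k := by
    rw [pow_add]; ring
  rw [e, map_sub, sub_eq_zero] at h1
  rw [T_iterate, T_iterate, h1]

theorem Z_of_eq {m n k P : ℕ} (hn : 0 < n)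
    (h : T^[k + P] (Pi.single (0 : ZMod n) (1 : ZMod m)) = T^[k] (Pi.single (0 : ZMod n) (1 : ZMod m))) :
    Z m (X ^ n - 1) ((1 + X) ^ k * ((1 + X) ^ P - 1)) := by
  apply Z_of_single hn
  have e : ((1 + X) ^ k * ((1 + X) ^ P - 1) : ℤ[X]) = (1 + X) ^ (k + P) - (1 + X) ^ k := by
    rw [pow_add]; ring
  rw [e, map_sub, LinearMap.sub_apply, ← T_iterate, ← T_iterate, h, sub_self]

theorem cycle_spec {m n : ℕ} (hm : 0 < m) (hn : 0 < n) (a : ZMod n → ZMod m) :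
    0 < cycleLength a ∧ ∀ k, Nmax m n ≤ k → T^[k + cycleLength a] a = T^[k] a := by
  obtain ⟨P0, hP0, h0⟩ := global_upper hm hn
  have hper : ∀ k, Nmax m n ≤ k → ∀ j, T^[k + j * P0] a = T^[k] a := by
    intro k hk j
    induction j with
    | zero => simp
    | succ j ih =>
      rw [← ih, show k + (j + 1) * P0 = (k + j * P0) + P0 by ring]
      apply eq_of_Z
      obtain ⟨c, hc⟩ := Nat.exists_eq_add_of_le (hk.trans (Nat.le_add_right k (j * P0)))
      rw [hc, pow_add]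
      have e : ((1 + X) ^ (Nmax m n) * (1 + X) ^ c * ((1 + X) ^ P0 - 1) : ℤ[X]) =
        ((1 + X) ^ (Nmax m n) * ((1 + X) ^ P0 - 1)) * (1 + X) ^ c := by ring
      rw [e]
      exact Z_mul h0 _
  have hmem : P0 ∈ {P : ℕ | 0 < P ∧ ∃ N : ℕ, 0 < N ∧ ∀ k, N ≤ k → T^[k + P] a = T^[k] a} :=
    ⟨hP0, Nmax m n, lt_of_lt_of_le one_pos (le_max_left _ _), fun k hk => by
      have := hper k hk 1
      rwa [one_mul] at this⟩
  obtain ⟨h1, N, hN, h2⟩ := Nat.sInf_mem (Set.nonempty_of_mem hmem)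
  change 0 < cycleLength a at h1
  change ∀ k, N ≤ k → T^[k + cycleLength a] a = T^[k] a at h2
  refine ⟨h1, fun k hk => ?_⟩
  have hle : N ≤ k + N * P0 := (Nat.le_mul_of_pos_right N hP0).trans (Nat.le_add_left _ _)
  have h3 := h2 _ hle
  rw [show k + N * P0 + cycleLength a = (k + cycleLength a) + N * P0 by ring] at h3
  rw [hper k hk N, hper _ (hk.trans (Nat.le_add_right _ _)) N] at h3
  exact h3

theorem prePeriod_le {m n : ℕ} (hm : 0 < m) (hn : 0 < n) (a : ZMod n → ZMod m) :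
    prePeriod a ≤ Nmax m n :=
  Nat.sInf_le ⟨lt_of_lt_of_le one_pos (le_max_left _ _), (cycle_spec hm hn a).2⟩

theorem prePeriod_single {m n : ℕ} (hm : 0 < m) (hn : 0 < n) :
    prePeriod (Pi.single (0 : ZMod n) (1 : ZMod m)) = Nmax m n := by
  refine le_antisymm (prePeriod_le hm hn _) ?_
  by_contra hlt
  push Not at hlt
  obtain ⟨h1, h2⟩ := cycle_spec hm hn (Pi.single (0 : ZMod n) (1 : ZMod m))
  have hmem : prePeriod (Pi.single (0 : ZMod n) (1 : ZMod m)) ∈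
      {N : ℕ | 0 < N ∧ ∀ k, N ≤ k → T^[k + cycleLength (Pi.single (0 : ZMod n) (1 : ZMod m))]
        (Pi.single (0 : ZMod n) (1 : ZMod m)) = T^[k] (Pi.single (0 : ZMod n) (1 : ZMod m))} :=
    Nat.sInf_mem ⟨Nmax m n, lt_of_lt_of_le one_pos (le_max_left _ _), h2⟩
  obtain ⟨h3, h4⟩ := hmem
  generalize prePeriod (Pi.single (0 : ZMod n) (1 : ZMod m)) = N at *
  have h5 : N < m.primeFactors.sup (loc m n) := by
    unfold Nmax at hlt
    rcases lt_max_iff.1 hlt with h | h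
    · omega
    · exact h
  obtain ⟨p, hp, h6⟩ := Finset.lt_sup_iff.1 h5
  have h7 := Z_of_dvd' (Nat.ordProj_dvd m p) (Z_of_eq hn (h4 N le_rfl))
  exact prime_lower hn (Nat.prime_of_mem_primeFactors hp) (one_le_factorization hp) h3 h6 h1 h7

/-- **The largest pre-period of the cyclic sum map.**
For all positive integers `m`, `n`, the maximum of the pre-periods `N(a)`, `a ∈ (ℤ / m) ^ n`, is
`max 1 (max_{p ∣ m} loc m n p)`, where for a prime `p` with `p ^ e ∥ m` and `p ^ b ∥ n`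
* `loc = e` if `b = 0`, `p = 2`; `loc = 1` if `b = 0`, `p ≠ 2`; `loc = 1` if `p ≠ 2` and `n` is odd;
* `loc = p ^ (b - 1) * (p + (e - 1) * (p - 1))` in all the other cases;
and it is attained at `(1, 0, ..., 0)`. -/
theorem result (m n : ℕ) (hm : 0 < m) (hn : 0 < n) :
    IsGreatest {N : ℕ | ∃ a : ZMod n → ZMod m, N = prePeriod a}
      (max 1 (m.primeFactors.sup fun p =>
        if n.factorization p = 0 then (if p = 2 then m.factorization p else 1)
        else if p ≠ 2 ∧ ¬ 2 ∣ n then 1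
        else p ^ (n.factorization p - 1) * (p + (m.factorization p - 1) * (p - 1)))) ∧
    prePeriod (Pi.single (0 : ZMod n) (1 : ZMod m)) =
      max 1 (m.primeFactors.sup fun p =>
        if n.factorization p = 0 then (if p = 2 then m.factorization p else 1)
        else if p ≠ 2 ∧ ¬ 2 ∣ n then 1
        else p ^ (n.factorization p - 1) * (p + (m.factorization p - 1) * (p - 1))) := by
  change IsGreatest _ (Nmax m n) ∧ _ = Nmax m n
  refine ⟨⟨⟨_, (prePeriod_single hm hn).symm⟩, ?_⟩, prePeriod_single hm hn⟩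
  rintro _ ⟨a, rfl⟩
  exact prePeriod_le hm hn a

end Pool.Agent.Results.MP_6a5936_nt.PrePeriod
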